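import Pool.Agent.Q36.DDi.Final3

/-!
# MP_77c30a_nt: the integer content of double discriminants (Q1, affirmative; exact formula)
-/

namespace Pool.Agent.Results.MP_77c30a_nt.ExactContent

open Polynomial

/-- `D_n = disc_x (a_0 + a_1 x + ... + a_n x^n) ∈ ℤ[a_0, ..., a_n]`. -/
noncomputable def D (n : ℕ) : MvPolynomial (Fin (n + 1)) ℤ :=
  (∑ i : Fin (n + 1), C (MvPolynomial.X i) * X ^ (i : ℕ) :
    (MvPolynomial (Fin (n + 1)) ℤ)[X]).discr

/-- A polynomial in `a_0, ..., a_n` regarded as a polynomial in the single variable `a_k`, with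
coefficients in `ℤ[a_i : i ≠ k]`: the ring homomorphism with `a_k ↦ X` and `a_i ↦ C a_i`. -/
noncomputable def asPoly (n k : ℕ) : MvPolynomial (Fin (n + 1)) ℤ →+*
    (MvPolynomial {i : Fin (n + 1) // (i : ℕ) ≠ k} ℤ)[X] :=
  MvPolynomial.eval₂Hom (Int.castRingHom _)
    (fun i => if h : (i : ℕ) ≠ k then C (MvPolynomial.X ⟨i, h⟩) else X)

/-- The double discriminant `DD_{n,k} = disc_{a_k} D_n`. -/
noncomputable def DD (n k : ℕ) : MvPolynomial {i : Fin (n + 1) // (i : ℕ) ≠ k} ℤ :=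
  (asPoly n k (D n)).discr

/-- `c_{n,k}`: the greatest common divisor of the coefficients of `DD_{n,k}`. -/
noncomputable def c (n k : ℕ) : ℕ :=
  (DD n k).support.gcd (fun m => ((DD n k).coeff m).natAbs)

theorem DD_eq (n k : ℕ) : DD n k = Q36.DDi.DD n k := rfl

theorem c_eq (n k : ℕ) : c n k = Q36.DDi.content (Q36.DDi.DD n k) := rfl

theorem DD_ne_zero {n k : ℕ} (hn : 2 ≤ n) (hk : k < n) : DD n k ≠ 0 := by
  intro h0
  have h1 := Q36.DDi.closed hn hk
  have h2 : Q36.DDi.content (Q36.DDi.DD n k) = 0 := by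
    rw [← DD_eq, h0, Q36.DDi.content, MvPolynomial.support_zero, Finset.gcd_empty]
  rw [h2] at h1
  exact mul_ne_zero (pow_ne_zero _ two_ne_zero) (pow_ne_zero _
    (Nat.gcd_ne_zero_left (Q36.DDi.pow_self_ne_zero k))) h1.symm

theorem result :
    -- the exact value of the content
    (∀ n k : ℕ, 2 ≤ n → k < n → DD n k ≠ 0 ∧
      c n k = 2 ^ (4 * ((n - 1) / 2) + if Even n ∧ Odd k then 4 else 0) *
        Nat.gcd (k ^ k) ((n - k) ^ (n - k)) ^ 2) ∧
    -- the three parts of the question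
    (∀ n k : ℕ, 2 ≤ n → 2 * k ≤ n →
      -- (a)
      (1 ≤ k → ∀ p : ℕ, p.Prime → (p ∣ c n k ↔ p ∣ 2 * Nat.gcd k n)) ∧
      c n 0 = 2 ^ (4 * ((n - 1) / 2)) ∧
      -- (b)
      4 * ((n - 1) / 2) ≤ padicValNat 2 (c n k) ∧
      (k = 0 → padicValNat 2 (c n k) = 4 * ((n - 1) / 2)) ∧
      -- (c)
      ∀ p : ℕ, p.Prime → 2 * p ∣ padicValNat p (c n k)) := by
  have hc : ∀ n k : ℕ, 2 ≤ n → k < n →
      c n k = 2 ^ (4 * ((n - 1) / 2) + if Even n ∧ Odd k then 4 else 0) *
        Nat.gcd (k ^ k) ((n - k) ^ (n - k)) ^ 2 := fun n k hn hk => Q36.DDi.closed hn hk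
  refine ⟨fun n k hn hk => ⟨DD_ne_zero hn hk, hc n k hn hk⟩, ?_⟩
  intro n k hn hk
  have h0 : c n 0 = 2 ^ (4 * ((n - 1) / 2)) := by
    rw [hc n 0 hn (by omega)]
    have h3 : ¬ (Even n ∧ Odd 0) := fun h => by simpa using h.2
    rw [if_neg h3]
    simp
  by_cases hn2 : n = 2
  · subst hn2
    have h3 : k = 0 ∨ k = 1 := by omega
    rcases h3 with rfl | rfl
    · have e : c 2 0 = 1 := Q36.DDi.content_two_zero
      refine ⟨fun h => by omega, h0, by omega, fun _ => by rw [e]; simp, ?_⟩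
      intro p _
      rw [e]
      simp
    · have e : c 2 1 = 16 := Q36.DDi.content_two_one
      refine ⟨fun _ p hp => ?_, h0, by omega, fun h => by omega, ?_⟩
      · rw [e]
        have : (16 : ℕ) = 2 ^ 4 := by norm_num
        rw [this, show Nat.gcd 1 2 = 1 by norm_num, mul_one]
        exact ⟨fun h => hp.dvd_of_dvd_pow h, fun h => dvd_pow h (by norm_num)⟩
      · intro p hp
        rw [e]
        by_cases hp2 : p = 2
        · have h16 : padicValNat 2 16 = 4 := by
            rw [show (16 : ℕ) = 2 ^ 4 by norm_num, padicValNat.prime_pow]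
          rw [hp2, h16]
        · rw [padicValNat.eq_zero_of_not_dvd]
          · exact dvd_zero _
          · intro h
            rw [show (16 : ℕ) = 2 ^ 4 by norm_num] at h
            exact hp2 ((Nat.prime_dvd_prime_iff_eq hp Nat.prime_two).1 (hp.dvd_of_dvd_pow h))
  · have hn3 : 3 ≤ n := by omega
    have hkn : k < n := by omega
    have hne : c n k ≠ 0 := Q36.DDi.content_ne_zero (DD_ne_zero hn hkn)
    have hv : ∀ p : ℕ, p.Prime → padicValNat p (c n k) = Q36.DDi.expo n k p := by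
      intro p hp
      rw [← Nat.factorization_def _ hp]
      exact (Q36.DDi.content_formula hn3 hkn p hp).2
    obtain ⟨h2a, _, h2c⟩ := Q36.DDi.expo_two hn3 hk
    refine ⟨fun hk1 p hp => ?_, h0, ?_, fun hk0 => ?_, fun p hp => ?_⟩
    · rw [hp.dvd_iff_one_le_factorization hne, Nat.factorization_def _ hp, hv p hp]
      exact Q36.DDi.expo_pos hn3 hk hk1 hp
    · rw [hv 2 Nat.prime_two]
      exact h2a
    · rw [hv 2 Nat.prime_two]
      exact h2c hk0
    · rw [hv p hp]
      exact Q36.DDi.expo_dvd hn3 hk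

end Pool.Agent.Results.MP_77c30a_nt.ExactContent
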